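import Mathlib

set_option autoImplicit false

open Filter Topology

namespace Pool.Agent.Helper53.BM

/-- The top of the Rayleigh quotient of a symmetric operator has approximate eigenvectors. -/
theorem approx_eigen {V : Type*} [NormedAddCommGroup V] [NormedSpace ℝ V] [Nontrivial V]
    (g : V →L[ℝ] StrongDual ℝ V) (hs : ∀ v w, g v w = g w v)
    {c : ℝ} (hc : 0 < c) (hg : ∀ v, c * ‖v‖ ^ 2 ≤ g v v) (A : V →L[ℝ] V)
    (hA : ∀ v w, g (A v) w = g v (A w)) :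
    ∃ l : ℝ, (∀ v, g (A v) v ≤ l * g v v) ∧
      ∀ ε : ℝ, 0 < ε → ∃ v : V, ‖v‖ = 1 ∧ ‖A v - l • v‖ ≤ ε := by
  have hbd : ∀ v w : V, g v w ≤ ‖g‖ * ‖v‖ * ‖w‖ := by
    intro v w
    calc g v w ≤ ‖g v w‖ := Real.le_norm_self _
      _ ≤ ‖g v‖ * ‖w‖ := (g v).le_opNorm w
      _ ≤ (‖g‖ * ‖v‖) * ‖w‖ := by
          gcongr
          exact g.le_opNorm v
  have hpos : ∀ v : V, v ≠ 0 → 0 < g v v := by
    intro v hv
    have h1 : 0 < ‖v‖ := norm_pos_iff.2 hv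
    have h2 := hg v
    have h3 : 0 < c * ‖v‖ ^ 2 := by positivity
    linarith
  let S : Set ℝ := {r | ∃ v : V, ‖v‖ = 1 ∧ r = g (A v) v / g v v}
  obtain ⟨v0, hv0⟩ : ∃ v : V, ‖v‖ = 1 := exists_norm_eq V zero_le_one
  have hSne : S.Nonempty := ⟨_, v0, hv0, rfl⟩
  have hSbd : BddAbove S := by
    refine ⟨‖g‖ * ‖A‖ / c, ?_⟩
    rintro r ⟨v, hv, rfl⟩
    have hv' : v ≠ 0 := by
      intro h
      rw [h, norm_zero] at hv
      exact zero_ne_one hv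
    have h1 : g (A v) v ≤ ‖g‖ * ‖A‖ := by
      have h2 := hbd (A v) v
      rw [hv, mul_one] at h2
      have h3 : ‖A v‖ ≤ ‖A‖ := by
        have := A.le_opNorm v
        rwa [hv, mul_one] at this
      exact h2.trans (mul_le_mul_of_nonneg_left h3 (norm_nonneg g))
    have h2 : c ≤ g v v := by
      have := hg v
      rwa [hv, one_pow, mul_one] at this
    rw [div_le_div_iff₀ (hpos v hv') hc]
    have h3 : 0 ≤ ‖g‖ * ‖A‖ := mul_nonneg (norm_nonneg g) (norm_nonneg A)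
    calc g (A v) v * c ≤ (‖g‖ * ‖A‖) * c := mul_le_mul_of_nonneg_right h1 hc.le
      _ ≤ (‖g‖ * ‖A‖) * g v v := mul_le_mul_of_nonneg_left h2 h3
  obtain ⟨l, hl⟩ : ∃ l, l = sSup S := ⟨_, rfl⟩
  have hle1 : ∀ v : V, ‖v‖ = 1 → g (A v) v ≤ l * g v v := by
    intro v hv
    have hv' : v ≠ 0 := by
      intro h
      rw [h, norm_zero] at hv
      exact zero_ne_one hv
    have h1 : g (A v) v / g v v ≤ l := hl ▸ le_csSup hSbd ⟨v, hv, rfl⟩
    rwa [div_le_iff₀ (hpos v hv')] at h1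
  have hle : ∀ v : V, g (A v) v ≤ l * g v v := by
    intro v
    by_cases hv : v = 0
    · subst hv
      simp
    · have hn : 0 < ‖v‖ := norm_pos_iff.2 hv
      have h1 := hle1 (‖v‖⁻¹ • v) (by rw [norm_smul, norm_inv, norm_norm, inv_mul_cancel₀ hn.ne'])
      simp only [map_smul, smul_apply, smul_eq_mul] at h1
      have h2 : 0 < ‖v‖⁻¹ * ‖v‖⁻¹ := by positivity
      have h3 : (‖v‖⁻¹ * ‖v‖⁻¹) * g (A v) v ≤ (‖v‖⁻¹ * ‖v‖⁻¹) * (l * g v v) := by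
        calc (‖v‖⁻¹ * ‖v‖⁻¹) * g (A v) v = ‖v‖⁻¹ * (‖v‖⁻¹ * g (A v) v) := by ring
          _ ≤ l * (‖v‖⁻¹ * (‖v‖⁻¹ * g v v)) := h1
          _ = (‖v‖⁻¹ * ‖v‖⁻¹) * (l * g v v) := by ring
      exact le_of_mul_le_mul_left h3 h2
  refine ⟨l, hle, ?_⟩
  intro ε hε
  -- the operator `B = l - A`
  let B : V →L[ℝ] V := l • ContinuousLinearMap.id ℝ V - A
  have hB : ∀ v, B v = l • v - A v := fun v => rfl
  have hBs : ∀ v w, g (B v) w = g v (B w) := by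
    intro v w
    rw [hB, hB]
    simp only [map_sub, map_smul, sub_apply, smul_apply]
    rw [hA]
  have hBp : ∀ v, 0 ≤ g (B v) v := by
    intro v
    rw [hB]
    simp only [map_sub, map_smul, sub_apply, smul_apply, smul_eq_mul]
    linarith [hle v]
  have hK : 0 < ‖g‖ * ‖B‖ + 1 := by positivity
  obtain ⟨K, hKdef⟩ : ∃ K, K = ‖g‖ * ‖B‖ + 1 := ⟨_, rfl⟩
  rw [← hKdef] at hK
  have hKB : ∀ w : V, g (B w) w ≤ K * ‖w‖ ^ 2 := by
    intro w
    calc g (B w) w ≤ ‖g‖ * ‖B w‖ * ‖w‖ := hbd _ _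
      _ ≤ ‖g‖ * (‖B‖ * ‖w‖) * ‖w‖ := by
          gcongr
          exact B.le_opNorm w
      _ = (‖g‖ * ‖B‖) * ‖w‖ ^ 2 := by ring
      _ ≤ K * ‖w‖ ^ 2 := by
          gcongr
          rw [hKdef]
          linarith
  have hG : 0 < ‖g‖ + 1 := by positivity
  -- choose `δ`
  obtain ⟨δ, hδdef⟩ : ∃ δ, δ = ε ^ 2 * c ^ 2 / (K * (‖g‖ + 1)) := ⟨_, rfl⟩
  have hδ : 0 < δ := by
    rw [hδdef]
    positivity
  obtain ⟨r, ⟨v, hv, rfl⟩, hr⟩ := exists_lt_of_lt_csSup hSne (show l - δ < sSup S by linarith)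
  have hv' : v ≠ 0 := by
    intro h
    rw [h, norm_zero] at hv
    exact zero_ne_one hv
  refine ⟨v, hv, ?_⟩
  have h1 : g (B v) v ≤ δ * (‖g‖ + 1) := by
    rw [lt_div_iff₀ (hpos v hv')] at hr
    rw [hB]
    simp only [map_sub, map_smul, sub_apply, smul_apply, smul_eq_mul]
    have h2 : g v v ≤ ‖g‖ := by
      have := hbd v v
      rwa [hv, mul_one, mul_one] at this
    have h3 : δ * g v v ≤ δ * (‖g‖ + 1) := mul_le_mul_of_nonneg_left (by linarith) hδ.le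
    nlinarith
  -- positivity of the form at `v - t B v`
  have h2 : 0 ≤ g (B (v - (c / K) • B v)) (v - (c / K) • B v) := hBp _
  have h3 : g (B (v - (c / K) • B v)) (v - (c / K) • B v)
      = g (B v) v - 2 * (c / K) * g (B v) (B v) + (c / K) ^ 2 * g (B (B v)) (B v) := by
    simp only [map_sub, map_smul, sub_apply, smul_apply, smul_eq_mul]
    have h4 : g (B (B v)) v = g (B v) (B v) := hBs (B v) v
    rw [h4]
    ring
  rw [h3] at h2
  have h4 : c * ‖B v‖ ^ 2 ≤ g (B v) (B v) := hg _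
  have h5 : g (B (B v)) (B v) ≤ K * ‖B v‖ ^ 2 := hKB _
  have h6 : (c / K) ^ 2 * g (B (B v)) (B v) ≤ (c / K) ^ 2 * (K * ‖B v‖ ^ 2) :=
    mul_le_mul_of_nonneg_left h5 (by positivity)
  have h7 : 2 * (c / K) * (c * ‖B v‖ ^ 2) ≤ 2 * (c / K) * g (B v) (B v) :=
    mul_le_mul_of_nonneg_left h4 (by positivity)
  have h8 : (c / K) ^ 2 * (K * ‖B v‖ ^ 2) = c ^ 2 / K * ‖B v‖ ^ 2 := by
    field_simp
  have h9 : 2 * (c / K) * (c * ‖B v‖ ^ 2) = 2 * (c ^ 2 / K * ‖B v‖ ^ 2) := by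
    field_simp
  have h10 : c ^ 2 / K * ‖B v‖ ^ 2 ≤ δ * (‖g‖ + 1) := by linarith
  have h11 : δ * (‖g‖ + 1) = c ^ 2 / K * ε ^ 2 := by
    rw [hδdef]
    field_simp
  rw [h11] at h10
  have h12 : ‖B v‖ ^ 2 ≤ ε ^ 2 := le_of_mul_le_mul_left h10 (by positivity)
  have h13 : ‖B v‖ ≤ ε := (pow_le_pow_iff_left₀ (norm_nonneg _) hε.le two_ne_zero).1 h12
  rw [← norm_neg, neg_sub]
  exact h13

end Pool.Agent.Helper53.BM
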