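import Mathlib

set_option autoImplicit false

open Filter Topology

namespace Pool.Agent.Helper4.MH

universe u

/-- A copy of `E`, to carry the inner product `g`. -/
def Syn (E : Type u) : Type u := E

instance (E : Type u) [NormedAddCommGroup E] : AddCommGroup (Syn E) :=
  inferInstanceAs (AddCommGroup E)

instance (E : Type u) [NormedAddCommGroup E] [NormedSpace ℝ E] : Module ℝ (Syn E) :=
  inferInstanceAs (Module ℝ E)

variable {E : Type u} [NormedAddCommGroup E] [NormedSpace ℝ E]

/-- The identity as a linear equivalence. -/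
def toSyn : E ≃ₗ[ℝ] Syn E := LinearEquiv.refl ℝ E

/-- The inner product structure of a coercive symmetric bounded form. -/
@[instance_reducible]
noncomputable def core (g : E →L[ℝ] StrongDual ℝ E) (hs : ∀ v w, g v w = g w v)
    {c : ℝ} (hc : 0 < c) (hg : ∀ v, c * ‖v‖ ^ 2 ≤ g v v) : InnerProductSpace.Core ℝ (Syn E) where
  inner v w := g (toSyn.symm v) (toSyn.symm w)
  conj_inner_symm v w := by
    simp only [conj_trivial]
    exact hs _ _
  re_inner_nonneg v := by
    simp only [RCLike.re_to_real]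
    exact le_trans (by positivity) (hg _)
  add_left v w z := by
    simp only [map_add, add_apply]
  smul_left v w r := by
    simp only [map_smul, smul_apply, smul_eq_mul, conj_trivial]
  definite v h := by
    have h1 := hg (toSyn.symm v)
    have h2 : g (toSyn.symm v) (toSyn.symm v) = 0 := h
    rw [h2] at h1
    have h3 : ‖(toSyn.symm v : E)‖ ^ 2 ≤ 0 := by
      by_contra hne
      push Not at hne
      have := mul_pos hc hne
      linarith
    have h4 : ‖(toSyn.symm v : E)‖ = 0 := by
      have := sq_nonneg ‖(toSyn.symm v : E)‖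
      exact pow_eq_zero_iff (two_ne_zero) |>.1 (le_antisymm h3 this)
    have h5 : (toSyn.symm v : E) = 0 := norm_eq_zero.1 h4
    simpa using h5

set_option maxHeartbeats 2000000 in
/-- A coercive symmetric bounded form on a Banach space is the inner product of a Hilbert space. -/
theorem exists_hilbert [CompleteSpace E] (g : E →L[ℝ] StrongDual ℝ E)
    (hs : ∀ v w, g v w = g w v) {c : ℝ} (hc : 0 < c) (hg : ∀ v, c * ‖v‖ ^ 2 ≤ g v v) :
    ∃ (H : Type u) (_ : NormedAddCommGroup H) (_ : InnerProductSpace ℝ H) (_ : CompleteSpace H)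
      (e : E ≃L[ℝ] H), ∀ v w : E, inner ℝ (e v) (e w) = g v w := by
  have hub : ∀ v : E, g v v ≤ (Real.sqrt ‖g‖ * ‖v‖) ^ 2 := by
    intro v
    rw [mul_pow, Real.sq_sqrt (norm_nonneg g)]
    calc g v v ≤ ‖g v v‖ := Real.le_norm_self _
      _ ≤ ‖g v‖ * ‖v‖ := (g v).le_opNorm v
      _ ≤ (‖g‖ * ‖v‖) * ‖v‖ := by
          gcongr
          exact g.le_opNorm v
      _ = ‖g‖ * ‖v‖ ^ 2 := by ring
  have hlb : ∀ v : E, (Real.sqrt c * ‖v‖) ^ 2 ≤ g v v := by
    intro v
    rw [mul_pow, Real.sq_sqrt hc.le]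
    exact hg v
  have hM : 0 ≤ Real.sqrt ‖g‖ := Real.sqrt_nonneg _
  generalize Real.sqrt ‖g‖ = M at hub hM
  have hc' : 0 < Real.sqrt c := Real.sqrt_pos.2 hc
  let cd := core g hs hc hg
  let i1 : NormedAddCommGroup (Syn E) := cd.toNormedAddCommGroup
  let i2 : InnerProductSpace ℝ (Syn E) := InnerProductSpace.ofCore cd.toCore
  have hinner : ∀ v w : E, @inner ℝ (Syn E) _ (toSyn v) (toSyn w) = g v w := fun v w => rfl
  have hnorm : ∀ v : E, ‖(toSyn v : Syn E)‖ ^ 2 = g v v := by
    intro v
    rw [← real_inner_self_eq_norm_sq, hinner]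
  have hto : ∀ v : E, ‖(toSyn v : Syn E)‖ ≤ M * ‖v‖ := by
    intro v
    have h1 : ‖(toSyn v : Syn E)‖ ^ 2 ≤ (M * ‖v‖) ^ 2 := by
      rw [hnorm]
      exact hub v
    exact (pow_le_pow_iff_left₀ (norm_nonneg _) (mul_nonneg hM (norm_nonneg _)) two_ne_zero).1 h1
  have hinv : ∀ v : Syn E, ‖(toSyn.symm v : E)‖ ≤ (Real.sqrt c)⁻¹ * ‖v‖ := by
    intro v
    obtain ⟨u, rfl⟩ := toSyn.surjective v
    rw [LinearEquiv.symm_apply_apply]
    have h1 : (Real.sqrt c * ‖u‖) ^ 2 ≤ ‖(toSyn u : Syn E)‖ ^ 2 := by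
      rw [hnorm]
      exact hlb u
    have h2 := (pow_le_pow_iff_left₀ (mul_nonneg hc'.le (norm_nonneg _)) (norm_nonneg _)
      two_ne_zero).1 h1
    rw [inv_mul_eq_div, le_div_iff₀ hc']
    linarith
  let e : E ≃L[ℝ] Syn E := toSyn.toContinuousLinearEquivOfBounds _ _ hto hinv
  have hcomp : CompleteSpace (Syn E) := by
    exact (completeSpace_congr (e := (e : E ≃ Syn E)) e.isUniformEmbedding).1 inferInstance
  exact ⟨Syn E, i1, i2, hcomp, e, fun v w => rfl⟩

end Pool.Agent.Helper4.MH

namespace Pool.Agent.Helper53.BM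

open Pool.Agent.Helper4.MH

universe u

variable {E : Type u} [NormedAddCommGroup E] [NormedSpace ℝ E]

/-- Orthogonal projection onto the closure of a subspace, for an equivalent inner product. -/
theorem exists_proj [CompleteSpace E] (g : E →L[ℝ] StrongDual ℝ E) (hs : ∀ v w, g v w = g w v)
    {c : ℝ} (hc : 0 < c) (hg : ∀ v, c * ‖v‖ ^ 2 ≤ g v v) (W : Submodule ℝ E) :
    ∃ P : E →L[ℝ] E, (∀ v, P v ∈ W.topologicalClosure) ∧
      (∀ v, ∀ w ∈ W.topologicalClosure, g (v - P v) w = 0) := by
  obtain ⟨H, _, _, _, e, hinner⟩ := exists_hilbert g hs hc hg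
  let K : Submodule ℝ H := (W.topologicalClosure).map (e : E →ₗ[ℝ] H)
  have hKc : IsClosed (K : Set H) := by
    have h1 : (K : Set H) = e '' (W.topologicalClosure : Set E) := by
      ext y
      simp [K]
    rw [h1]
    exact e.toHomeomorph.isClosedMap _ W.isClosed_topologicalClosure
  have : CompleteSpace K := hKc.completeSpace_coe
  refine ⟨((e.symm : H →L[ℝ] E).comp K.starProjection).comp (e : E →L[ℝ] H), ?_, ?_⟩
  · intro v
    have h1 : K.starProjection (e v) ∈ K := Submodule.starProjection_apply_mem K _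
    obtain ⟨u, hu, hue⟩ := h1
    have h2 : e.symm (K.starProjection (e v)) = u := by
      rw [← hue]
      simp
    change e.symm (K.starProjection (e v)) ∈ _
    rw [h2]
    exact hu
  · intro v w hw
    have h1 : inner ℝ (e v - K.starProjection (e v)) (e w) = 0 :=
      K.starProjection_inner_eq_zero (e v) (e w) ⟨w, hw, rfl⟩
    have h2 : e v - K.starProjection (e v) = e (v - e.symm (K.starProjection (e v))) := by
      rw [map_sub, ContinuousLinearEquiv.apply_symm_apply]
    rw [h2, hinner] at h1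
    exact h1

end Pool.Agent.Helper53.BM
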